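import Pool.Agent.MXD.RingL
import Pool.Agent.STR.Dom

/-!
# The arc bound of a staircase cylinder (M2' of the lattice words of nu34/ISO)

The words that start at the cut edge of the row i and end at the cut edge of a row j of the same type, on one side of
the stair, have at xc the total weight at most `1 / cos (3 π / 8)`, for all numbers of rings.
-/

set_option autoImplicit false

namespace Pool.Agent.MXD

open HexObs HexObs.LP Complex Finset Pool.Agent.NUF.Cyl Pool.Agent.MXR Pool.Agent.STR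

lemma mm_stp (D : Stp) (i : ℤ) : mm D.d i = D.o i := rfl

lemma ring_stp (D : Stp) {N b : ℕ} (hN : 1 ≤ N) (hS : D.d N = D.d 0 + sh N b) : Ring D.d N (sh N b) :=
  ⟨hN, D.st, D.par, hS⟩

lemma dR_stp (D : Stp) (i : ℤ) : dR (D.o i - 1) i = if D.mi i = true then (1, 0) else (1, -1) := by
  have h := D.par i
  unfold dR
  rcases D.cases i with ⟨h1, h2, -⟩ | ⟨h1, h2, -⟩
  · rw [h1, h2, if_neg (by omega), if_neg (by decide)]
  · rw [h1, h2, if_pos (by omega), if_pos rfl]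

lemma dL_stp (D : Stp) (i : ℤ) : dL (D.o i) i = if D.mi i = true then (-1, 0) else (-1, 1) := by
  have h := D.par i
  unfold dL
  rcases D.cases i with ⟨h1, h2, -⟩ | ⟨h1, h2, -⟩
  · rw [h1, h2, if_pos (by omega), if_neg (by decide)]
  · rw [h1, h2, if_neg (by omega), if_pos rfl]

/-- the arc bound, the right side -/
theorem arcR0 (D : Stp) {N b : ℕ} (hN : 1 ≤ N) (hS : D.d N = D.d 0 + sh N b) {i j : ℤ} (hi : 0 ≤ i ∧ i < N)
    (hj : 0 ≤ j ∧ j < N) (hij : D.mi i = D.mi j) (n : ℕ) :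
    (Cs N b hN).Ws xc (STR.Dm D N n 0) {(V (D.o j - 1) j, dR (D.o j - 1) j)} (V (D.o i - 1) i, dR (D.o i - 1) i) ≤
      1 / Real.cos (3 * Real.pi / 8) := by
  refine ring_R (ring_stp D hN hS) (fun x a => nm_Vm x a) (n := n) ?_ hi hj ?_
  · intro x a hx
    rw [STR.mem_Dm] at hx
    rw [mm_stp]
    have h1 := hx.1.1
    push_cast at h1
    constructor <;> omega
  · rw [mm_stp, mm_stp, dR_stp, dR_stp, hij]

/-- the arc bound, the left side -/
theorem arcL0 (D : Stp) {N b : ℕ} (hN : 1 ≤ N) (hS : D.d N = D.d 0 + sh N b) {i j : ℤ} (hi : 0 ≤ i ∧ i < N)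
    (hj : 0 ≤ j ∧ j < N) (hij : D.mi i = D.mi j) (n : ℕ) :
    (Cs N b hN).Ws xc (STR.Dm D N 0 n) {(V (D.o j) j, dL (D.o j) j)} (V (D.o i) i, dL (D.o i) i) ≤
      1 / Real.cos (3 * Real.pi / 8) := by
  refine ring_L (ring_stp D hN hS) (fun x a => nm_Vm x a) (n := n) ?_ hi hj ?_
  · intro x a hx
    rw [STR.mem_Dm] at hx
    rw [mm_stp]
    have h1 := hx.1.2
    push_cast at h1
    constructor <;> omega
  · rw [mm_stp, mm_stp, dL_stp, dL_stp, hij]

/-- the arc bound, the right side, with the convention of STR -/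
theorem arcR (D : Stp) {N b : ℕ} (hN : 1 ≤ N) (hS : ∀ i, D.d (i + N) = D.d i + sh N b) {i j : ℤ}
    (hi : 0 ≤ i ∧ i < N) (hj : 0 ≤ j ∧ j < N) (hij : D.mi i = D.mi j) (n : ℕ) :
    (Cs N b hN).Ws xc (STR.Dm D N n 0) {(V (D.o j - 1) j, dR (D.o j - 1) j)} (V (D.o i - 1) i, dR (D.o i - 1) i) ≤
      1 / Real.cos (3 * Real.pi / 8) :=
  arcR0 D hN (by have := hS 0; rwa [zero_add] at this) hi hj hij n

/-- the arc bound, the left side, with the convention of STR -/
theorem arcL (D : Stp) {N b : ℕ} (hN : 1 ≤ N) (hS : ∀ i, D.d (i + N) = D.d i + sh N b) {i j : ℤ}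
    (hi : 0 ≤ i ∧ i < N) (hj : 0 ≤ j ∧ j < N) (hij : D.mi i = D.mi j) (n : ℕ) :
    (Cs N b hN).Ws xc (STR.Dm D N 0 n) {(V (D.o j) j, dL (D.o j) j)} (V (D.o i) i, dL (D.o i) i) ≤
      1 / Real.cos (3 * Real.pi / 8) :=
  arcL0 D hN (by have := hS 0; rwa [zero_add] at this) hi hj hij n

end Pool.Agent.MXD
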