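import Pool.Agent.MXD.WindD

/-!
# The bound of the words around the cut edges of a staircase domain (M2' of the lattice words of nu34/ISO)
-/

set_option autoImplicit false

namespace Pool.Agent.MXD

open HexObs HexObs.LP Complex Finset Pool.Agent.NUF.Cyl Pool.Agent.MXR

lemma dR_cases (x i : ℤ) : dR x i = (1, 0) ∨ dR x i = (1, -1) := by
  unfold dR
  split_ifs
  · exact Or.inl rfl
  · exact Or.inr rfl

/-- the words that leave the domain in the direction opposite to the first one -/
theorem plane_bdD {d : ℤ → ℤ} (hd : Stair d) (n T : ℕ) {i0 : ℤ} (hi0 : -(T : ℤ) ≤ i0 ∧ i0 ≤ T) :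
    ∑ t ∈ (exits (Bd d n T) (V (mm d i0 - 1) i0) (dR (mm d i0 - 1) i0)).filter
      (fun t => dx (dR (mm d i0 - 1) i0) t t.length = -dR (mm d i0 - 1) i0), xc ^ t.length ≤
      1 / Real.cos (3 * Real.pi / 8) := by
  classical
  have h0 : dR (mm d i0 - 1) i0 ∈ dirs := dR_mem _ _
  have hpi := Real.pi_pos
  have hc : 0 < Real.cos (3 * Real.pi / 8) := by
    apply Real.cos_pos_of_mem_Ioo
    constructor <;> linarith
  obtain ⟨B, hB⟩ := exists_cols d n T
  have hid := identity_reP (prol_row (d := d) (n := n) (T := T) (i0 := i0) (l := 2 * (B + (mm d i0).natAbs + 2))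
    (fun x i h => by
      have := hB x i h
      omega))
  rw [le_div_iff₀ hc, ← hid, Finset.sum_mul]
  have hnn : ∀ t ∈ exits (Bd d n T) (V (mm d i0 - 1) i0) (dR (mm d i0 - 1) i0),
      0 ≤ Real.cos (wind t * (Real.pi / 8)) * xc ^ t.length := by
    intro t ht
    have h1 := wind_Bd hd hi0 ht
    have h2 : |((wind t : ℤ) : ℝ)| ≤ 4 := by exact_mod_cast h1
    rw [abs_le] at h2
    apply mul_nonneg _ (pow_nonneg xc_pos.le _)
    apply Real.cos_nonneg_of_mem_Icc
    constructor <;> nlinarith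
  refine le_trans (le_of_eq ?_) (Finset.sum_le_sum_of_subset_of_nonneg
    (Finset.filter_subset (fun t => dx (dR (mm d i0 - 1) i0) t t.length = -dR (mm d i0 - 1) i0) _)
    (fun t ht _ => hnn t ht))
  apply Finset.sum_congr rfl
  intro t ht
  rw [Finset.mem_filter] at ht
  have h1 := wind_Bd hd hi0 ht.1
  have h2 := ang_dx h0 t
  rw [ht.2] at h2
  have h3 : wind t = 3 ∨ wind t = -3 := by
    rw [abs_le] at h1
    obtain ⟨W, hW⟩ : ∃ W, W = wind t := ⟨_, rfl⟩
    rw [← hW] at h1 h2 ⊢
    have hc : W = 0 ∨ W = 1 ∨ W = -1 ∨ W = 2 ∨ W = -2 ∨ W = 3 ∨ W = -3 ∨ W = 4 ∨ W = -4 := by omega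
    rcases dR_cases (mm d i0 - 1) i0 with h5 | h5 <;> rw [h5] at h2 <;>
    rcases hc with rfl | rfl | rfl | rfl | rfl | rfl | rfl | rfl | rfl
    all_goals first | exact Or.inl rfl | exact Or.inr rfl | (exfalso; revert h2; decide)
  have h4 : Real.cos (wind t * (Real.pi / 8)) = Real.cos (3 * Real.pi / 8) := by
    rcases h3 with h | h
    · rw [h]
      congr 1
      push_cast
      ring
    · rw [h, ← Real.cos_neg]
      congr 1
      push_cast
      ring
  rw [h4]
  ring

end Pool.Agent.MXD
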