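import Pool.Agent.MXR.LoopN
import Pool.Agent.MXR.WindN

/-!
# The vertex identity for a start that can be prolonged to a straight line (M2' of the lattice words of nu34/ISO)

The identity of Duminil-Copin and Smirnov holds for a domain without any straight side at the start, if the start can be
prolonged backwards by a word outside of the domain to a start at the boundary of a half plane.
-/

set_option autoImplicit false

namespace Pool.Agent.MXD

open HexObs Complex Finset Pool.Agent.MXR

/-- the word p ends with the start (v0, d0) of the domain, is outside of it and together with it in a half plane at v' -/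
structure Prol (Ω : Finset Pt) (v0 d0 nn v' d' : Pt) (p : List Bool) : Prop where
  hd : d' ∈ dirs
  hv : vx v' d' p p.length = v0
  hx : dx d' p p.length = d0
  inj : ∀ i k, i < k → k ≤ p.length → vx v' d' p i ≠ vx v' d' p k
  out : ∀ i, i ≤ p.length → vx v' d' p i ∉ Ω
  pre : ∀ i, 1 ≤ i → i ≤ p.length → 0 < ip (vx v' d' p i - v') nn
  half : ∀ v ∈ Ω, 0 < ip (v - v') nn

section

variable {Ω : Finset Pt} {v0 d0 nn v' d' : Pt} {p : List Bool}

lemma vx_cat' (v d : Pt) (s t : List Bool) (i : ℕ) :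
    vx v d (s ++ t) (s.length + i) = vx (vx v d s s.length) (dx d s s.length) t i := by
  have h1 : vx v d (s ++ t) (s.length + i) = vx (vx v d (s ++ t) s.length) (dx d (s ++ t) s.length) t i := by
    unfold vx dx
    rw [vs_shift]
    exact vs_congr i fun k _ => tf_append_right k
  rw [h1, vx_append (by omega), dx_append le_rfl]

lemma dx_cat' (d : Pt) (s t : List Bool) (i : ℕ) :
    dx d (s ++ t) (s.length + i) = dx (dx d s s.length) t i := by
  have h1 : dx d (s ++ t) (s.length + i) = dx (dx d (s ++ t) s.length) t i := by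
    unfold dx
    rw [ds_shift]
    exact ds_congr i fun k _ => tf_append_right k
  rw [h1, dx_append le_rfl]

namespace Prol

lemma vxt (h : Prol Ω v0 d0 nn v' d' p) (t : List Bool) (i : ℕ) :
    vx v' d' (p ++ t) (p.length + i) = vx v0 d0 t i := by
  rw [vx_cat', h.hv, h.hx]

lemma vxp (t : List Bool) {i : ℕ} (hi : i ≤ p.length) : vx v' d' (p ++ t) i = vx v' d' p i := vx_append (by omega)

lemma dxt (h : Prol Ω v0 d0 nn v' d' p) (t : List Bool) (i : ℕ) :
    dx d' (p ++ t) (p.length + i) = dx d0 t i := by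
  rw [dx_cat', h.hx]

lemma start (h : Prol Ω v0 d0 nn v' d' p) : v0 ∉ Ω := by
  rw [← h.hv]
  exact h.out _ le_rfl

lemma hd0 (h : Prol Ω v0 d0 nn v' d' p) : d0 ∈ dirs := by
  rw [← h.hx]
  exact ds_mem h.hd _

/-- the prolonged word is self-avoiding -/
lemma inj' (h : Prol Ω v0 d0 nn v' d' p) {t : List Bool} (ht : IsArr Ω v0 d0 t) :
    ∀ i k, i < k → k ≤ (p ++ t).length → vx v' d' (p ++ t) i ≠ vx v' d' (p ++ t) k := by
  intro i k hik hk
  rw [List.length_append] at hk
  rcases Nat.lt_or_ge p.length k with h1 | h1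
  · obtain ⟨k', rfl⟩ : ∃ k', k = p.length + k' := ⟨k - p.length, by omega⟩
    rw [h.vxt]
    rcases Nat.lt_or_ge i p.length with h2 | h2
    · rw [vxp t h2.le]
      intro he
      apply h.out i h2.le
      rw [he]
      exact ht.mem k' (by omega) (by omega)
    · obtain ⟨i', rfl⟩ : ∃ i', i = p.length + i' := ⟨i - p.length, by omega⟩
      rw [h.vxt]
      exact ht.inj i' k' (by omega) (by omega)
  · rw [vxp t (by omega), vxp t h1]
    exact h.inj i k hik h1

/-- the prolonged word is in the half plane -/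
lemma half' (h : Prol Ω v0 d0 nn v' d' p) {t : List Bool} (ht : IsArr Ω v0 d0 t) :
    ∀ i, 1 ≤ i → i ≤ (p ++ t).length → 0 < ip (vx v' d' (p ++ t) i - v') nn := by
  intro i h1 h2
  rw [List.length_append] at h2
  rcases Nat.lt_or_ge p.length i with h3 | h3
  · obtain ⟨i', rfl⟩ : ∃ i', i = p.length + i' := ⟨i - p.length, by omega⟩
    rw [h.vxt]
    exact h.half _ (ht.mem i' (by omega) (by omega))
  · rw [vxp t h3]
    exact h.pre i h1 h3

end Prol

lemma wind_backP (hP : Prol Ω v0 d0 nn v' d' p) {t : List Bool} (h : IsArr Ω v0 d0 t) {j : ℕ} (hj : 1 ≤ j)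
    (hjl : j ≤ t.length) (hv : vx v0 d0 t j = tip v0 d0 t) :
    wind t = ∑ i ∈ range (j - 1), sgn (tf t i) - 4 * sgn (tf t (j - 1)) := by
  rw [wind_sum]
  obtain ⟨m, hm⟩ : ∃ m, t.length = (j - 1) + 1 + m := ⟨t.length - j, by omega⟩
  rw [hm, Finset.sum_range_add, Finset.sum_range_succ]
  have hlen : (p ++ t).length = p.length + t.length := List.length_append
  have := loop_turnN (v0 := v') (d0 := d') (τ := tf (p ++ t)) hP.hd (j := p.length + j) (l := p.length + t.length)
    (by omega) (by omega) ?_ ?_ nn ?_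
  · have e0 : p.length + t.length - (p.length + j) = m := by omega
    rw [e0] at this
    have e2 : j - 1 + 1 = j := by omega
    have e3 : ∀ k, tf (p ++ t) (p.length + j + k) = tf t (j + k) := by
      intro k
      rw [add_assoc, tf_append_right]
    have e4 : tf (p ++ t) (p.length + j - 1) = tf t (j - 1) := by
      rw [show p.length + j - 1 = p.length + (j - 1) by omega, tf_append_right]
    simp only [e3, e4] at this
    rw [e2, this]
    ring
  · show vx v' d' (p ++ t) (p.length + t.length + 1) = vx v' d' (p ++ t) (p.length + j)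
    rw [add_assoc, hP.vxt, hP.vxt]
    exact hv.symm
  · intro i k hik hk
    exact hP.inj' h i k hik (by omega)
  · intro i h1 h2
    exact hP.half' h i h1 (by omega)

lemma back_retP (hP : Prol Ω v0 d0 nn v' d' p) {t : List Bool} (ht : t ∈ back Ω v0 d0) :
    1 ≤ ret v0 d0 t ∧ ret v0 d0 t ≤ t.length ∧ vx v0 d0 t (ret v0 d0 t) = tip v0 d0 t := by
  classical
  rw [mem_back] at ht
  obtain ⟨harr, hmem, hnot⟩ := ht
  push Not at hnot
  obtain ⟨i, hi, hv⟩ := hnot
  have hi1 : 1 ≤ i := by
    rcases Nat.eq_zero_or_pos i with h0 | h0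
    · exfalso
      rw [h0] at hv
      have h1 : v0 = tip v0 d0 t := hv
      rw [← h1] at hmem
      exact hP.start hmem
    · exact h0
  rw [ret_unique harr hi1 hi hv]
  exact ⟨hi1, hi, hv⟩

lemma wt_revwP (hP : Prol Ω v0 d0 nn v' d' p) {t : List Bool} (h : IsArr Ω v0 d0 t) {j : ℕ} (hj : 1 ≤ j)
    (hjl : j ≤ t.length) (hv : vx v0 d0 t j = tip v0 d0 t) : wt t + wt (revw t j) = 0 := by
  obtain ⟨h', hv', -⟩ := revw_back hP.hd0 h hj hjl hv
  have hl := revw_length t j
  have w1 := wind_backP hP h hj hjl hv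
  have w2 := wind_backP hP h' hj (by omega) hv'
  have e1 : ∑ i ∈ range (j - 1), sgn (tf (revw t j) i) = ∑ i ∈ range (j - 1), sgn (tf t i) := by
    apply Finset.sum_congr rfl
    intro i hi
    rw [mem_range] at hi
    rw [tf_revw (by omega), revτ_lt (by omega)]
  have e2 : sgn (tf (revw t j) (j - 1)) = - sgn (tf t (j - 1)) := by
    rw [tf_revw (by omega), revτ_eq hj, sgn_not]
  rw [e1, e2] at w2
  have e3 : wind (revw t j) = wind t + 8 * sgn (tf t (j - 1)) := by
    rw [w1, w2]
    ring
  unfold wt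
  rw [hl, e3]
  have e4 : (((((wind t + 8 * sgn (tf t (j - 1)) : ℤ) : ℝ) * (Real.pi / 8) : ℝ)) : ℂ) * I =
      (((wind t : ℝ) * (Real.pi / 8) : ℝ) : ℂ) * I + (sgn (tf t (j - 1)) : ℂ) * (Real.pi * I) := by
    push_cast
    ring
  rw [e4, Complex.exp_add]
  have e5 : Complex.exp ((sgn (tf t (j - 1)) : ℂ) * (Real.pi * I)) = -1 := by
    cases tf t (j - 1)
    · simp only [sgn, Bool.false_eq_true, if_false]
      push_cast
      rw [neg_one_mul, Complex.exp_neg, Complex.exp_pi_mul_I]
      norm_num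
    · simp only [sgn, if_true]
      push_cast
      rw [one_mul, Complex.exp_pi_mul_I]
  rw [e5]
  ring

theorem sum_backP (hP : Prol Ω v0 d0 nn v' d' p) : ∑ t ∈ back Ω v0 d0, wt t = 0 := by
  refine Finset.sum_involution (fun t _ => revw t (ret v0 d0 t)) ?_ ?_ ?_ ?_
  · intro t ht
    obtain ⟨h1, h2, h3⟩ := back_retP hP ht
    exact wt_revwP hP (mem_back.1 ht).1 h1 h2 h3
  · intro t ht _
    obtain ⟨h1, h2, h3⟩ := back_retP hP ht
    exact revw_ne h1 h2
  · intro t ht
    obtain ⟨h1, h2, h3⟩ := back_retP hP ht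
    obtain ⟨h', hv', ht'⟩ := revw_back hP.hd0 (mem_back.1 ht).1 h1 h2 h3
    rw [mem_back]
    refine ⟨h', ?_, ?_⟩
    · rw [ht']
      exact (mem_back.1 ht).2.1
    · push Not
      exact ⟨ret v0 d0 t, by rw [revw_length]; exact h2, hv'⟩
  · intro t ht
    obtain ⟨h1, h2, h3⟩ := back_retP hP ht
    obtain ⟨h', hv', ht'⟩ := revw_back hP.hd0 (mem_back.1 ht).1 h1 h2 h3
    show revw (revw t (ret v0 d0 t)) (ret v0 d0 (revw t (ret v0 d0 t))) = t
    rw [ret_unique h' h1 (by rw [revw_length]; exact h2) hv']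
    exact revw_revw h1 h2

/-- **THE IDENTITY of Duminil-Copin and Smirnov** for a start with a prolongation -/
theorem identityP (hP : Prol Ω v0 d0 nn v' d' p) : ∑ t ∈ exits Ω v0 d0, wt t = 1 := by
  have h1 := sum_arr Ω v0 d0 wt
  rw [sum_arr' Ω v0 d0, sum_backP hP] at h1
  linear_combination -h1

/-- the real part -/
theorem identity_reP (hP : Prol Ω v0 d0 nn v' d' p) :
    ∑ t ∈ exits Ω v0 d0, Real.cos (wind t * (Real.pi / 8)) * xc ^ t.length = 1 := by
  have h1 := congrArg Complex.re (identityP hP)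
  rw [Complex.re_sum, Complex.one_re] at h1
  rw [← h1]
  apply Finset.sum_congr rfl
  intro t _
  unfold wt
  rw [← Complex.ofReal_pow, Complex.re_mul_ofReal, Complex.exp_ofReal_mul_I_re]

end

end Pool.Agent.MXD
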