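import Pool.Agent.MXD.LoopP
import Pool.Agent.MXR.Arc

/-!
# Walks at the left side of a staircase domain of the brick wall (M2' of the lattice words of nu34/ISO)

The boundary is a lattice path `d` (`d (i + 1) = d i ± 1`), the row `i` of the domain starts at the column
`min (d i) (d (i + 1))`.  All exits of a walk that starts at the left side have windings of absolute value at most 4.
-/

set_option autoImplicit false

namespace Pool.Agent.MXD

open HexObs HexObs.LP Complex Finset Pool.Agent.NUF.Cyl Pool.Agent.MXR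

/-! ### words along a row -/

/-- the alternating word -/
def rowW : Bool → ℕ → List Bool
  | _, 0 => []
  | b, n + 1 => b :: rowW (!b) n

lemma rowW_length (b : Bool) (n : ℕ) : (rowW b n).length = n := by
  induction n generalizing b with
  | zero => rfl
  | succ n ih =>
    show (rowW (!b) n).length + 1 = n + 1
    rw [ih]

lemma wind_cons (b : Bool) (t : List Bool) : wind (b :: t) = sgn b + wind t := by
  unfold wind
  simp

lemma wind_rowW (b : Bool) (n : ℕ) : wind (rowW b n) = if n % 2 = 0 then 0 else sgn b := by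
  induction n generalizing b with
  | zero => rfl
  | succ n ih =>
    show wind (b :: rowW (!b) n) = _
    rw [wind_cons, ih]
    by_cases h : n % 2 = 0
    · rw [if_pos h, if_neg (by omega), add_zero]
    · rw [if_neg h, if_pos (by omega), sgn_not]
      ring

lemma wind_rowW_le (b : Bool) (n : ℕ) : |wind (rowW b n)| ≤ 1 := by
  rw [wind_rowW]
  split_ifs
  · decide
  · cases b <;> decide

lemma vx_cons (v d : Pt) (b : Bool) (t : List Bool) (k : ℕ) : vx v d (b :: t) (k + 1) = vx (v + d) (turn b d) t k := by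
  have h := vx_cat' v d [b] t k
  rw [show [b].length + k = k + 1 by simp [add_comm]] at h
  exact h

lemma dx_cons (d : Pt) (b : Bool) (t : List Bool) (k : ℕ) : dx d (b :: t) (k + 1) = dx (turn b d) t k := by
  have h := dx_cat' d [b] t k
  rw [show [b].length + k = k + 1 by simp [add_comm]] at h
  exact h

/-- the first letter of the word to the right -/
def bR (x i : ℤ) : Bool := decide ((x - i) % 2 ≠ 0)

/-- the first letter of the word to the left -/
def bL (x i : ℤ) : Bool := decide ((x - i) % 2 = 0)

lemma turn_R (x i : ℤ) : turn (bR x i) (dR x i) = dR (x + 1) i := by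
  unfold bR dR
  by_cases h : (x - i) % 2 = 0
  · have h2 : ¬ (x + 1 - i) % 2 = 0 := by omega
    simp only [h, h2, ne_eq, not_true_eq_false, decide_false, if_true, if_false]
    decide
  · have h2 : (x + 1 - i) % 2 = 0 := by omega
    simp only [h, h2, ne_eq, not_false_eq_true, decide_true, if_true, if_false]
    decide

lemma turn_L (x i : ℤ) : turn (bL x i) (dL x i) = dL (x - 1) i := by
  unfold bL dL
  by_cases h : (x - i) % 2 = 0
  · have h2 : ¬ (x - 1 - i) % 2 = 0 := by omega
    simp only [h, h2, decide_true, if_true, if_false]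
    decide
  · have h2 : (x - 1 - i) % 2 = 0 := by omega
    simp only [h, h2, decide_false, if_true, if_false]
    decide

lemma bR_not (x i : ℤ) : (!bR x i) = bR (x + 1) i := by
  unfold bR
  by_cases h : (x - i) % 2 = 0
  · have h2 : ¬ (x + 1 - i) % 2 = 0 := by omega
    simp [h, h2]
  · have h2 : (x + 1 - i) % 2 = 0 := by omega
    simp [h, h2]

lemma bL_not (x i : ℤ) : (!bL x i) = bL (x - 1) i := by
  unfold bL
  by_cases h : (x - i) % 2 = 0
  · have h2 : ¬ (x - 1 - i) % 2 = 0 := by omega
    simp [h, h2]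
  · have h2 : (x - 1 - i) % 2 = 0 := by omega
    simp [h, h2]

lemma row_R (i : ℤ) (n : ℕ) : ∀ x : ℤ, (∀ k, k ≤ n + 1 → vx (V x i) (dR x i) (rowW (bR x i) n) k = V (x + k) i) ∧
    ∀ k, k ≤ n → dx (dR x i) (rowW (bR x i) n) k = dR (x + k) i := by
  induction n with
  | zero =>
    intro x
    refine ⟨fun k hk => ?_, fun k hk => ?_⟩
    · rcases Nat.eq_zero_or_pos k with h | h
      · subst h
        show V x i = _
        simp
      · have : k = 1 := by omega
        subst this
        show V x i + dR x i = _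
        rw [V_dR]
        simp
    · have : k = 0 := by omega
      subst this
      show dR x i = _
      simp
  | succ n ih =>
    intro x
    obtain ⟨h1, h2⟩ := ih (x + 1)
    refine ⟨fun k hk => ?_, fun k hk => ?_⟩
    · rcases Nat.eq_zero_or_pos k with h | h
      · subst h
        show V x i = _
        simp
      · obtain ⟨k', rfl⟩ : ∃ k', k = k' + 1 := ⟨k - 1, by omega⟩
        show vx (V x i) (dR x i) (bR x i :: rowW (!bR x i) n) (k' + 1) = _
        rw [vx_cons, V_dR, turn_R, bR_not, h1 k' (by omega)]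
        congr 1
        push_cast
        ring
    · rcases Nat.eq_zero_or_pos k with h | h
      · subst h
        show dR x i = _
        simp
      · obtain ⟨k', rfl⟩ : ∃ k', k = k' + 1 := ⟨k - 1, by omega⟩
        show dx (dR x i) (bR x i :: rowW (!bR x i) n) (k' + 1) = _
        rw [dx_cons, turn_R, bR_not, h2 k' (by omega)]
        congr 1
        push_cast
        ring

lemma row_L (i : ℤ) (n : ℕ) : ∀ x : ℤ, (∀ k, k ≤ n + 1 → vx (V x i) (dL x i) (rowW (bL x i) n) k = V (x - k) i) ∧
    ∀ k, k ≤ n → dx (dL x i) (rowW (bL x i) n) k = dL (x - k) i := by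
  induction n with
  | zero =>
    intro x
    refine ⟨fun k hk => ?_, fun k hk => ?_⟩
    · rcases Nat.eq_zero_or_pos k with h | h
      · subst h
        show V x i = _
        simp
      · have : k = 1 := by omega
        subst this
        show V x i + dL x i = _
        rw [V_dL]
        simp
    · have : k = 0 := by omega
      subst this
      show dL x i = _
      simp
  | succ n ih =>
    intro x
    obtain ⟨h1, h2⟩ := ih (x - 1)
    refine ⟨fun k hk => ?_, fun k hk => ?_⟩
    · rcases Nat.eq_zero_or_pos k with h | h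
      · subst h
        show V x i = _
        simp
      · obtain ⟨k', rfl⟩ : ∃ k', k = k' + 1 := ⟨k - 1, by omega⟩
        show vx (V x i) (dL x i) (bL x i :: rowW (!bL x i) n) (k' + 1) = _
        rw [vx_cons, V_dL, turn_L, bL_not, h1 k' (by omega)]
        congr 1
        push_cast
        ring
    · rcases Nat.eq_zero_or_pos k with h | h
      · subst h
        show dL x i = _
        simp
      · obtain ⟨k', rfl⟩ : ∃ k', k = k' + 1 := ⟨k - 1, by omega⟩
        show dx (dL x i) (bL x i :: rowW (!bL x i) n) (k' + 1) = _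
        rw [dx_cons, turn_L, bL_not, h2 k' (by omega)]
        congr 1
        push_cast
        ring

/-! ### the staircase domain -/

/-- a lattice path -/
structure Stair (d : ℤ → ℤ) : Prop where
  st : ∀ i, d (i + 1) = d i + 1 ∨ d (i + 1) = d i - 1
  pr : ∀ i, (d i - i) % 2 = 0

/-- the first column of the row i -/
def mm (d : ℤ → ℤ) (i : ℤ) : ℤ := min (d i) (d (i + 1))

/-- the rows -T, .., T of the columns number 0, .., 2 n - 1 behind the path -/
noncomputable def Bd (d : ℤ → ℤ) (n T : ℕ) : Finset Pt :=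
  (Finset.Icc (-(T : ℤ)) T).biUnion fun i => (Finset.Ico (mm d i) (mm d i + 2 * n)).image fun x => V x i

theorem mem_Bd {d : ℤ → ℤ} {n T : ℕ} {x i : ℤ} : V x i ∈ Bd d n T ↔
    (mm d i ≤ x ∧ x < mm d i + 2 * n) ∧ -(T : ℤ) ≤ i ∧ i ≤ T := by
  unfold Bd
  rw [Finset.mem_biUnion]
  constructor
  · rintro ⟨j, hj, h⟩
    rw [Finset.mem_image] at h
    obtain ⟨y, hy, e⟩ := h
    rw [V_inj] at e
    obtain ⟨rfl, rfl⟩ := e
    rw [Finset.mem_Icc] at hj
    rw [Finset.mem_Ico] at hy
    exact ⟨hy, hj⟩
  · rintro ⟨h1, h2⟩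
    exact ⟨i, Finset.mem_Icc.2 h2, Finset.mem_image.2 ⟨x, Finset.mem_Ico.2 h1, rfl⟩⟩

theorem exists_of_mem_Bd {d : ℤ → ℤ} {n T : ℕ} {v : Pt} (h : v ∈ Bd d n T) : ∃ x i : ℤ, v = V x i ∧
    (mm d i ≤ x ∧ x < mm d i + 2 * n) ∧ -(T : ℤ) ≤ i ∧ i ≤ T := by
  have h' := h
  unfold Bd at h
  rw [Finset.mem_biUnion] at h
  obtain ⟨j, hj, h⟩ := h
  rw [Finset.mem_image] at h
  obtain ⟨y, hy, e⟩ := h
  rw [← e] at h'
  exact ⟨y, j, e.symm, mem_Bd.1 h'⟩

/-- vertical exits are at the top or at the bottom -/
theorem vert_in {d : ℤ → ℤ} (hd : Stair d) {n T : ℕ} {x a : ℤ} (h : V x a ∈ Bd d n T) (hout : V x (io x a) ∉ Bd d n T) :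
    ((x - a) % 2 = 0 ∧ a = -T ∧ io x a = a - 1) ∨ (¬ (x - a) % 2 = 0 ∧ a = T ∧ io x a = a + 1) := by
  rw [mem_Bd] at h hout
  have s0 := hd.st (a - 1)
  have s1 := hd.st a
  have s2 := hd.st (a + 1)
  have q0 := hd.pr (a - 1)
  have q1 := hd.pr a
  have q2 := hd.pr (a + 1)
  rw [sub_add_cancel] at s0
  unfold mm at h hout
  by_cases hpar : (x - a) % 2 = 0
  · left
    have hio : io x a = a - 1 := by
      unfold io
      rw [if_pos hpar]
    refine ⟨hpar, ?_, hio⟩
    rw [hio, sub_add_cancel] at hout
    by_contra hne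
    apply hout
    omega
  · right
    have hio : io x a = a + 1 := by
      unfold io
      rw [if_neg hpar]
    refine ⟨hpar, ?_, hio⟩
    rw [hio] at hout
    by_contra hne
    apply hout
    omega

end Pool.Agent.MXD
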