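import Pool.Agent.MXD.RingR
import Pool.Agent.HexObs.Sym

/-!
# The words around the cut edges of a staircase cylinder, the left side (M2' of the lattice words of nu34/ISO)

The words of the left side are the mirror images of the words of the right side of the path `2 - d`.
-/

set_option autoImplicit false

namespace Pool.Agent.MXD

open HexObs HexObs.LP Complex Finset Pool.Agent.NUF.Cyl Pool.Agent.MXR

/-- the mirror x ↦ -x of the brick wall -/
def rho (v : Pt) : Pt := mulE (-1, 1) (conjE v)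

lemma rho_mk (a b : ℤ) : rho (a, b) = (-a, a + b) := by
  simp only [rho, mulE, conjE, Prod.mk.injEq]
  constructor <;> ring

lemma rho_V (x i : ℤ) : rho (V x i) = V (-x) i := by
  unfold V
  rw [rho_mk]
  refine Prod.ext rfl ?_
  show x + (3 * i + 3 - x) / 2 = (3 * i + 3 - -x) / 2
  omega

lemma rho_dL (x i : ℤ) : rho (dL x i) = dR (-x) i := by
  unfold dL dR
  by_cases h : (x - i) % 2 = 0
  · rw [if_pos h, if_pos (by omega)]
    decide
  · rw [if_neg h, if_neg (by omega)]
    decide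

lemma rho_add (v w : Pt) : rho (v + w) = rho v + rho w := by
  unfold rho
  rw [conjE_add, mulE_add]

lemma rho_neg (v : Pt) : rho (-v) = -rho v := by
  obtain ⟨a, b⟩ := v
  show rho (-a, -b) = -rho (a, b)
  rw [rho_mk, rho_mk]
  refine Prod.ext rfl ?_
  show -a + -b = -(a + b)
  ring

lemma rho_sub (v w : Pt) : rho (v - w) = rho v - rho w := by
  rw [sub_eq_add_neg, rho_add, rho_neg, ← sub_eq_add_neg]

lemma vx_rho (v d : Pt) (t : List Bool) {k : ℕ} (hk : k ≤ t.length + 1) :
    vx (rho v) (rho d) (t.map not) k = rho (vx v d t k) := by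
  have h1 := vx_refl (-1, 1) v (rho v) d t hk
  have h2 : vx (rho v) (rho d) (t.map not) k = rho v + rho (vx v d t k - v) := h1
  rw [h2, rho_sub]
  abel

lemma dx_rho (d : Pt) (t : List Bool) {k : ℕ} (hk : k ≤ t.length) :
    dx (rho d) (t.map not) k = rho (dx d t k) := dx_refl (-1, 1) d t hk

lemma mm_refl {d : ℤ → ℤ} (hst : ∀ i, d (i + 1) = d i + 1 ∨ d (i + 1) = d i - 1) (a : ℤ) :
    mm (fun i => 2 - d i) a = 1 - mm d a := by
  have := hst a
  show min (2 - d a) (2 - d (a + 1)) = 1 - min (d a) (d (a + 1))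
  omega

lemma Vt_VL (x i : ℤ) (t : List Bool) (k : ℕ) : Vt (vx (V x i) (dL x i) t k) := by
  have h1 := vx_hex (V x i) (dL x i) t k
  unfold IsHex at h1
  have h2 : Vt (V x i) := Vt_V x i
  have h3 : Vt (V x i + dL x i) := by
    rw [V_dL]
    exact Vt_V _ _
  unfold Vt at h2 h3 ⊢
  rw [HexObs.cl_add] at h3
  rcases h1 with h4 | h4
  · rw [h4]
    exact h2
  · rw [h4]
    exact h3

lemma dL_mem (x i : ℤ) : dL x i ∈ dirs := by
  unfold dL
  split_ifs <;> decide

section

variable {d : ℤ → ℤ} {N : ℕ} {s : ℤ}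

/-- the continuation of the mirror image -/
lemma Ring.stair' (h : Ring d N s) : Stair (fun i => 2 - per d N s i) := by
  obtain ⟨h1, h2⟩ := h.stair
  refine ⟨fun i => ?_, fun i => ?_⟩
  · have := h1 i
    show 2 - per d N s (i + 1) = 2 - per d N s i + 1 ∨ 2 - per d N s (i + 1) = 2 - per d N s i - 1
    omega
  · have := h2 i
    show (2 - per d N s i - i) % 2 = 0
    omega

/-- **the words around the cut edges, the left side** -/
theorem ring_L {C : Nm} (h : Ring d N s) (hnm : ∀ x a : ℤ, C.nm (V x a) = V (x - s * (a / N)) (a % N))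
    {Ω : Finset Pt} {n : ℕ} (hΩ : ∀ x i : ℤ, V x i ∈ Ω → mm d i - 2 * n ≤ x ∧ x < mm d i)
    {i j : ℤ} (hi : 0 ≤ i ∧ i < N) (hj : 0 ≤ j ∧ j < N) (hij : dL (mm d j) j = dL (mm d i) i) :
    C.Ws xc Ω {(V (mm d j) j, dL (mm d j) j)} (V (mm d i) i, dL (mm d i) i) ≤
      1 / Real.cos (3 * Real.pi / 8) := by
  classical
  obtain ⟨T, hT⟩ : ∃ T : ℕ, T = Ω.card + N + 3 := ⟨_, rfl⟩
  have hmi := mm_per_of h.hN h.hS hi
  have hpl := plane_bdD h.stair' n T (i0 := i) ⟨by omega, by omega⟩
  have hmr : ∀ a, mm (fun i => 2 - per d N s i) a = 1 - mm (per d N s) a := mm_refl h.stair.st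
  have e0 : mm (fun i => 2 - per d N s i) i - 1 = -mm d i := by
    rw [hmr, hmi]
    ring
  rw [e0] at hpl
  refine le_trans ?_ hpl
  have hinj : Function.Injective (fun t : List Bool => t.map not) := by
    intro t t' e
    have := congrArg (List.map not) e
    rwa [map_not_not, map_not_not] at this
  unfold Nm.Ws
  obtain ⟨S, hSS⟩ : ∃ S, S = (C.arr Ω (V (mm d i) i, dL (mm d i) i)).filter
    (fun t => C.rv (C.le (V (mm d i) i, dL (mm d i) i) t) ∈ ({(V (mm d j) j, dL (mm d j) j)} : Finset (Pt × Pt))) :=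
    ⟨_, rfl⟩
  rw [← hSS]
  have e1 : ∑ t ∈ S, xc ^ t.length = ∑ t ∈ S.image (fun t => t.map not), xc ^ t.length := by
    rw [Finset.sum_image (fun a _ b _ e => hinj e)]
    apply Finset.sum_congr rfl
    intro t _
    rw [List.length_map]
  rw [e1]
  refine Finset.sum_le_sum_of_subset_of_nonneg ?_ fun t _ _ => pow_nonneg xc_pos.le _
  intro t' ht'
  rw [Finset.mem_image] at ht'
  obtain ⟨t, ht, rfl⟩ := ht'
  rw [hSS, Finset.mem_filter, Nm.mem_arr, Finset.mem_singleton] at ht
  obtain ⟨harr, hle⟩ := ht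
  have hlen := harr.length_le
  have hD : dL (mm d i) i ∈ dirs := dL_mem _ _
  have hcol : ∀ k, 1 ≤ k → k ≤ t.length → ∃ x a : ℤ, vx (V (mm d i) i) (dL (mm d i) i) t k = V x a ∧
      V (-x) a ∈ Bd (fun i => 2 - per d N s i) n T := by
    intro k h1 h2'
    obtain ⟨x, a, hxa⟩ := exists_V (Vt_VL (mm d i) i t k)
    have h3 := harr.mem k h1 h2'
    have h4 : C.nm (vx (V (mm d i) i) (dL (mm d i) i) t k) ∈ Ω := h3
    rw [hxa, hnm] at h4
    have h5 := hΩ _ _ h4
    have h6 := row_bd hD hxa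
    rw [abs_le] at h6
    refine ⟨x, a, hxa, ?_⟩
    rw [mem_Bd, hmr, mm_per h.hN h.hS]
    refine ⟨⟨by omega, by omega⟩, by omega, by omega⟩
  have hle1 : dx (dL (mm d i) i) t t.length = -dL (mm d i) i := by
    have h3 := congrArg Prod.snd hle
    have h4 : -(dx (dL (mm d i) i) t t.length) = dL (mm d j) j := h3
    exact (neg_neg _).symm.trans (congrArg Neg.neg (h4.trans hij))
  have hle2 : C.nm (tip (V (mm d i) i) (dL (mm d i) i) t) = V (mm d j) j := by
    have h3 := congrArg Prod.fst hle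
    have h4 : C.nm (C.nm (vx (V (mm d i) i) (dL (mm d i) i) t t.length) +
      dx (dL (mm d i) i) t t.length) = V (mm d j) j := h3
    rw [C.add] at h4
    exact h4
  have eD : dR (-mm d i) i = rho (dL (mm d i) i) := (rho_dL _ _).symm
  have eV : V (-mm d i) i = rho (V (mm d i) i) := (rho_V _ _).symm
  have hvk : ∀ k, k ≤ t.length + 1 → vx (V (-mm d i) i) (dR (-mm d i) i) (t.map not) k =
      rho (vx (V (mm d i) i) (dL (mm d i) i) t k) := by
    intro k hk
    rw [eD, eV, vx_rho _ _ _ hk]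
  have hlm : (t.map not).length = t.length := List.length_map _
  rw [Finset.mem_filter]
  refine ⟨?_, ?_⟩
  · unfold exits
    rw [Finset.mem_filter, mem_arr]
    refine ⟨⟨?_, ?_⟩, ?_⟩
    · intro k h1 h2'
      rw [hlm] at h2'
      obtain ⟨x, a, hxa, hx⟩ := hcol k h1 h2'
      rw [hvk k (by omega), hxa, rho_V]
      exact hx
    · intro k l hkl hl e
      rw [hlm] at hl
      rcases Nat.eq_zero_or_pos k with h3 | h3
      · subst h3
        obtain ⟨x, a, hxa, hx⟩ := hcol l (by omega) hl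
        rw [hvk l (by omega), hxa, rho_V] at e
        have e' : V (-mm d i) i = V (-x) a := e
        rw [← e', mem_Bd, hmr, hmi] at hx
        omega
      · obtain ⟨x, a, hxa, hx⟩ := hcol k h3 (by omega)
        obtain ⟨y, b, hyb, hy⟩ := hcol l (by omega) hl
        rw [hvk k (by omega), hvk l (by omega), hxa, hyb, rho_V, rho_V, V_inj] at e
        apply harr.inj k l h3 hkl hl
        show C.nm (vx (V (mm d i) i) (dL (mm d i) i) t k) = C.nm (vx (V (mm d i) i) (dL (mm d i) i) t l)
        rw [hxa, hyb, e.2, neg_inj.1 e.1]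
    · intro h3
      have e4 : tip (V (-mm d i) i) (dR (-mm d i) i) (t.map not) = rho (tip (V (mm d i) i) (dL (mm d i) i) t) := by
        show vx _ _ (t.map not) ((t.map not).length + 1) = rho (vx _ _ t (t.length + 1))
        rw [hlm, hvk _ le_rfl]
      obtain ⟨x, a, hxa⟩ := exists_V (Vt_VL (mm d i) i t (t.length + 1))
      have hxa' : tip (V (mm d i) i) (dL (mm d i) i) t = V x a := hxa
      rw [e4, hxa', rho_V, mem_Bd, hmr, mm_per h.hN h.hS] at h3
      rw [hxa', hnm, V_inj] at hle2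
      rw [hle2.2] at h3
      omega
  · rw [hlm, eD, dx_rho _ _ le_rfl, hle1, rho_neg]

end

end Pool.Agent.MXD
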