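import Pool.Agent.MXD.BdR

/-!
# The words around the cut edges of a staircase cylinder, the right side (M2' of the lattice words of nu34/ISO)

`C` is a cylinder of N rows with the screw translation (s, N); `d` is a lattice path of the rows 0, .., N with
`d N = d 0 + s`.
-/

set_option autoImplicit false

namespace Pool.Agent.MXD

open HexObs HexObs.LP Complex Finset Pool.Agent.NUF.Cyl Pool.Agent.MXR

/-! ### the periodic continuation of the path -/

/-- the periodic continuation -/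
def per (d : ℤ → ℤ) (N : ℕ) (s : ℤ) (a : ℤ) : ℤ := d (a % N) + s * (a / N)

lemma mod_succ {N : ℕ} (hN : 1 ≤ N) (a : ℤ) : ((a + 1) % N = a % N + 1 ∧ (a + 1) / N = a / N ∧ a % N + 1 < N) ∨
    ((a + 1) % N = 0 ∧ (a + 1) / N = a / N + 1 ∧ a % N + 1 = N) := by
  have hN' : (1 : ℤ) ≤ N := by exact_mod_cast hN
  have h1 := Int.emod_nonneg a (b := (N : ℤ)) (by omega)
  have h2 := Int.emod_lt_of_pos a (b := (N : ℤ)) (by omega)
  have h3 := Int.mul_ediv_add_emod a N
  rcases lt_or_ge (a % N + 1) (N : ℤ) with h4 | h4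
  · left
    have e : a + 1 = (a % N + 1) + N * (a / N) := by linarith
    refine ⟨?_, ?_, h4⟩
    · rw [e, Int.add_mul_emod_self_left, Int.emod_eq_of_lt (by omega) h4]
    · rw [e, Int.add_mul_ediv_left _ _ (by omega), Int.ediv_eq_zero_of_lt (by omega) h4, zero_add]
  · right
    have h5 : a % N + 1 = N := by omega
    have e : a + 1 = N * (a / N + 1) := by linarith
    refine ⟨?_, ?_, h5⟩
    · rw [e, Int.mul_emod_right]
    · rw [e, Int.mul_ediv_cancel_left _ (by omega)]

section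

variable {d : ℤ → ℤ} {N : ℕ} {s : ℤ}

lemma per_succ (hN : 1 ≤ N) (hS : d N = d 0 + s) (a : ℤ) : per d N s (a + 1) = d (a % N + 1) + s * (a / N) := by
  unfold per
  rcases mod_succ hN a with ⟨h1, h2, -⟩ | ⟨h1, h2, h3⟩
  · rw [h1, h2]
  · rw [h1, h2, h3, hS]
    ring

lemma mm_per (hN : 1 ≤ N) (hS : d N = d 0 + s) (a : ℤ) : mm (per d N s) a = mm d (a % N) + s * (a / N) := by
  unfold mm
  rw [per_succ hN hS]
  unfold per
  rw [min_add_add_right]

/-- the path is a staircase with an even first value, the translation has the right parity -/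
structure Ring (d : ℤ → ℤ) (N : ℕ) (s : ℤ) : Prop where
  hN : 1 ≤ N
  st : ∀ i, d (i + 1) = d i + 1 ∨ d (i + 1) = d i - 1
  pr : ∀ i, (d i - i) % 2 = 0
  hS : d N = d 0 + s

lemma Ring.par (h : Ring d N s) : (s - N) % 2 = 0 := by
  have h1 := h.pr 0
  have h2 := h.pr N
  have h3 := h.hS
  omega

lemma Ring.stair (h : Ring d N s) : Stair (per d N s) := by
  refine ⟨fun i => ?_, fun i => ?_⟩
  · rw [per_succ h.hN h.hS]
    unfold per
    rcases h.st (i % N) with h1 | h1
    · left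
      rw [h1]
      ring
    · right
      rw [h1]
      ring
  · unfold per
    have h1 := h.pr (i % N)
    obtain ⟨r, hr⟩ : ∃ r, r = (s - N) / 2 := ⟨_, rfl⟩
    have h2 : s = N + 2 * r := by
      have := h.par
      omega
    have h3 := Int.mul_ediv_add_emod i N
    have e : d (i % N) + s * (i / N) - i = (d (i % N) - i % N) + 2 * (r * (i / N)) := by
      rw [h2]
      linarith
    rw [e]
    omega

lemma mm_per_of (hN : 1 ≤ N) (hS : d N = d 0 + s) {i : ℤ} (hi : 0 ≤ i ∧ i < N) : mm (per d N s) i = mm d i := by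
  rw [mm_per hN hS, Int.emod_eq_of_lt hi.1 hi.2, Int.ediv_eq_zero_of_lt hi.1 hi.2, mul_zero, add_zero]

/-- the rows of the vertices of a word -/
lemma row_bd {x i x' i' : ℤ} {D : Pt} (hD : D ∈ dirs) {t : List Bool} {k : ℕ} (h : vx (V x i) D t k = V x' i') :
    |i' - i| ≤ k + 1 := by
  have h5 := vx_row (V x i) hD t k
  have h6 := vx_col (V x i) hD t k
  rw [h, abs_le] at h5 h6
  have h7 := ri_V x i
  have h8 := ri_V x' i'
  unfold ri at h7 h8
  rw [abs_le]
  constructor <;> omega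

/-- **the words around the cut edges, the right side** -/
theorem ring_R {C : Nm} (h : Ring d N s) (hnm : ∀ x a : ℤ, C.nm (V x a) = V (x - s * (a / N)) (a % N))
    {Ω : Finset Pt} {n : ℕ} (hΩ : ∀ x i : ℤ, V x i ∈ Ω → mm d i ≤ x ∧ x < mm d i + 2 * n)
    {i j : ℤ} (hi : 0 ≤ i ∧ i < N) (hj : 0 ≤ j ∧ j < N) (hij : dR (mm d j - 1) j = dR (mm d i - 1) i) :
    C.Ws xc Ω {(V (mm d j - 1) j, dR (mm d j - 1) j)} (V (mm d i - 1) i, dR (mm d i - 1) i) ≤
      1 / Real.cos (3 * Real.pi / 8) := by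
  classical
  obtain ⟨T, hT⟩ : ∃ T : ℕ, T = Ω.card + N + 3 := ⟨_, rfl⟩
  have hmi := mm_per_of h.hN h.hS hi
  have hpl := plane_bdD h.stair n T (i0 := i) ⟨by omega, by omega⟩
  rw [hmi] at hpl
  refine le_trans ?_ hpl
  unfold Nm.Ws
  refine Finset.sum_le_sum_of_subset_of_nonneg ?_ fun t _ _ => pow_nonneg xc_pos.le _
  intro t ht
  rw [Finset.mem_filter, Nm.mem_arr, Finset.mem_singleton] at ht
  obtain ⟨harr, hle⟩ := ht
  have hlen := harr.length_le
  have hD : dR (mm d i - 1) i ∈ dirs := dR_mem _ _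
  have hcol : ∀ k, 1 ≤ k → k ≤ t.length → ∃ x a : ℤ, vx (V (mm d i - 1) i) (dR (mm d i - 1) i) t k = V x a ∧
      V x a ∈ Bd (per d N s) n T := by
    intro k h1 h2'
    obtain ⟨x, a, hxa⟩ := exists_V (Vt_V0 (mm d i - 1) i (t := t) k)
    have h3 := harr.mem k h1 h2'
    have h4 : C.nm (vx (V (mm d i - 1) i) (dR (mm d i - 1) i) t k) ∈ Ω := h3
    rw [hxa, hnm] at h4
    have h5 := hΩ _ _ h4
    have h6 := row_bd hD hxa
    rw [abs_le] at h6
    refine ⟨x, a, hxa, ?_⟩
    rw [mem_Bd, mm_per h.hN h.hS]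
    refine ⟨⟨by omega, by omega⟩, by omega, by omega⟩
  have hle1 : dx (dR (mm d i - 1) i) t t.length = -dR (mm d i - 1) i := by
    have h3 := congrArg Prod.snd hle
    have h4 : -(dx (dR (mm d i - 1) i) t t.length) = dR (mm d j - 1) j := h3
    exact (neg_neg _).symm.trans (congrArg Neg.neg (h4.trans hij))
  have hle2 : C.nm (tip (V (mm d i - 1) i) (dR (mm d i - 1) i) t) = V (mm d j - 1) j := by
    have h3 := congrArg Prod.fst hle
    have h4 : C.nm (C.nm (vx (V (mm d i - 1) i) (dR (mm d i - 1) i) t t.length) +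
      dx (dR (mm d i - 1) i) t t.length) = V (mm d j - 1) j := h3
    rw [C.add] at h4
    exact h4
  rw [Finset.mem_filter]
  refine ⟨?_, hle1⟩
  unfold exits
  rw [Finset.mem_filter, mem_arr]
  refine ⟨⟨?_, ?_⟩, ?_⟩
  · intro k h1 h2'
    obtain ⟨x, a, hxa, hx⟩ := hcol k h1 h2'
    rw [hxa]
    exact hx
  · intro k l hkl hl e
    rcases Nat.eq_zero_or_pos k with h3 | h3
    · subst h3
      obtain ⟨x, a, hxa, hx⟩ := hcol l (by omega) hl
      rw [hxa] at e
      have e' : V (mm d i - 1) i = V x a := e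
      rw [← e', mem_Bd, hmi] at hx
      omega
    · exact harr.inj k l h3 hkl hl (congrArg C.nm e)
  · intro h3
    obtain ⟨x, a, hxa, hx, -⟩ := exists_of_mem_Bd h3
    rw [hxa, hnm, V_inj] at hle2
    rw [mm_per h.hN h.hS, hle2.2] at hx
    omega

end

end Pool.Agent.MXD
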