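import Pool.Agent.MXD.Plane

/-!
# The windings of the exits of a staircase domain (M2' of the lattice words of nu34/ISO)
-/

set_option autoImplicit false

namespace Pool.Agent.MXD

open HexObs HexObs.LP Complex Finset Pool.Agent.NUF.Cyl Pool.Agent.MXR

/-! ### words prolonged at both ends -/

section

variable {Ω : Finset Pt} {v0 d0 nn v' d' : Pt} {p : List Bool}

/-- the vertices of the prolongation q behind the word t -/
def Cq (v0 d0 : Pt) (t q : List Bool) (k : ℕ) : Pt := vx (vx v0 d0 t t.length) (dx d0 t t.length) q k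

lemma vx_w (hP : Prol Ω v0 d0 nn v' d' p) (t q : List Bool) (k : ℕ) :
    vx v' d' (p ++ (t ++ q)) (p.length + t.length + k) = Cq v0 d0 t q k := by
  rw [add_assoc, hP.vxt, vx_cat']
  rfl

lemma vx_wB (hP : Prol Ω v0 d0 nn v' d' p) {t : List Bool} (q : List Bool) {k : ℕ} (hk : k ≤ t.length) :
    vx v' d' (p ++ (t ++ q)) (p.length + k) = vx v0 d0 t k := by
  rw [hP.vxt, vx_append (by omega)]

lemma dx_w (hP : Prol Ω v0 d0 nn v' d' p) (t q : List Bool) :
    dx d' (p ++ (t ++ q)) (p ++ (t ++ q)).length = dx (dx d0 t t.length) q q.length := by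
  rw [List.length_append, hP.dxt, List.length_append, dx_cat']

/-- the winding of a word that can be prolonged at both ends -/
theorem windP (hP : Prol Ω v0 d0 nn v' d' p) (hwp : wind p = 0) {t : List Bool} (ht : IsArr Ω v0 d0 t)
    (ht1 : 1 ≤ t.length) {q : List Bool} {mm : Pt}
    (hC1 : ∀ k, 1 ≤ k → k ≤ q.length → Cq v0 d0 t q k ∉ Ω)
    (hC2 : ∀ i, i ≤ p.length → ∀ k, 1 ≤ k → k ≤ q.length → vx v' d' p i ≠ Cq v0 d0 t q k)
    (hC3 : ∀ k l, 1 ≤ k → k < l → l ≤ q.length → Cq v0 d0 t q k ≠ Cq v0 d0 t q l)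
    (hC4 : ∀ k, 1 ≤ k → k ≤ q.length → 0 < ip (Cq v0 d0 t q k - v') nn)
    (htip : 0 ≤ ip (Cq v0 d0 t q (q.length + 1) - v') nn)
    (hE1 : ∀ i, 1 ≤ i → i ≤ p.length → 0 < ip (Cq v0 d0 t q (q.length + 1) - vx v' d' p i) mm ∧
      0 ≤ ip (Cq v0 d0 t q q.length - vx v' d' p i) mm)
    (hE2 : ∀ v ∈ Ω, 0 < ip (Cq v0 d0 t q (q.length + 1) - v) mm ∧ 0 ≤ ip (Cq v0 d0 t q q.length - v) mm)
    (hE3 : ∀ k, 1 ≤ k → k ≤ q.length → 0 < ip (Cq v0 d0 t q (q.length + 1) - Cq v0 d0 t q k) mm ∧
      0 ≤ ip (Cq v0 d0 t q q.length - Cq v0 d0 t q k) mm)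
    (hang : |arg (HexObs.emb (dx (dx d0 t t.length) q q.length) / HexObs.emb mm)| ≤ Real.pi / 6)
    (hdm : 0 < ip (dx (dx d0 t t.length) q q.length) mm) : |wind t + wind q| ≤ 4 := by
  obtain ⟨w, hw⟩ : ∃ w, w = p ++ (t ++ q) := ⟨_, rfl⟩
  have hlen : w.length = p.length + t.length + q.length := by
    rw [hw, List.length_append, List.length_append]
    omega
  have hC : ∀ k, vx v' d' w (p.length + t.length + k) = Cq v0 d0 t q k := fun k => by rw [hw]; exact vx_w hP t q k
  have hB : ∀ k, k ≤ t.length → vx v' d' w (p.length + k) = vx v0 d0 t k := fun k hk => by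
    rw [hw]
    exact vx_wB hP q hk
  have hA : ∀ k, k ≤ p.length → vx v' d' w k = vx v' d' p k := fun k hk => by
    rw [hw]
    exact Prol.vxp (t ++ q) hk
  have hcase : ∀ i, i ≤ w.length → i ≤ p.length ∨ (∃ k, 1 ≤ k ∧ k ≤ t.length ∧ i = p.length + k) ∨
      ∃ k, 1 ≤ k ∧ k ≤ q.length ∧ i = p.length + t.length + k := by
    intro i hi
    rcases Nat.lt_or_ge p.length i with h1 | h1
    · right
      rcases Nat.lt_or_ge (p.length + t.length) i with h2 | h2
      · exact Or.inr ⟨i - (p.length + t.length), by omega, by omega, by omega⟩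
      · exact Or.inl ⟨i - p.length, by omega, by omega, by omega⟩
    · exact Or.inl h1
  have htipw : tip v' d' w = Cq v0 d0 t q (q.length + 1) := by
    show vx v' d' w (w.length + 1) = _
    rw [hlen, add_assoc, hC]
  have hlast : vx v' d' w w.length = Cq v0 d0 t q q.length := by
    rw [hlen, hC]
  have hdxw : dx d' w w.length = dx (dx d0 t t.length) q q.length := by
    rw [hw]
    exact dx_w hP t q
  have hmemB : ∀ k, 1 ≤ k → k ≤ t.length → vx v0 d0 t k ∈ Ω := fun k k1 k2 => ht.mem k k1 k2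
  have key : |wind w| ≤ 4 := by
    refine wind_absN (v0 := v') (nn := nn) (mm := mm) hP.hd (by omega) ?_ ?_ ?_ ?_ ?_ ?_ ?_
    · intro i k hik hk
      rcases hcase i (by omega) with h1 | ⟨i', i1, i2, rfl⟩ | ⟨i', i1, i2, rfl⟩ <;>
      rcases hcase k hk with h2 | ⟨k', k1, k2, rfl⟩ | ⟨k', k1, k2, rfl⟩
      · rw [hA i h1, hA k h2]
        exact hP.inj i k hik h2
      · rw [hA i h1, hB k' k2]
        intro he
        apply hP.out i h1
        rw [he]
        exact hmemB k' k1 k2
      · rw [hA i h1, hC]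
        exact hC2 i h1 k' k1 k2
      · omega
      · rw [hB i' i2, hB k' k2]
        exact ht.inj i' k' (by omega) k2
      · rw [hB i' i2, hC]
        intro he
        apply hC1 k' k1 k2
        rw [← he]
        exact hmemB i' i1 i2
      · omega
      · omega
      · rw [hC, hC]
        exact hC3 i' k' i1 (by omega) k2
    · intro i i1 i2
      rcases hcase i i2 with h1 | ⟨i', k1, k2, rfl⟩ | ⟨i', k1, k2, rfl⟩
      · rw [hA i h1]
        exact hP.pre i i1 h1
      · rw [hB i' k2]
        exact hP.half _ (hmemB i' k1 k2)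
      · rw [hC]
        exact hC4 i' k1 k2
    · rw [htipw]
      exact htip
    · intro i i1 i2
      rw [htipw]
      rcases hcase i i2 with h1 | ⟨i', k1, k2, rfl⟩ | ⟨i', k1, k2, rfl⟩
      · rw [hA i h1]
        exact (hE1 i i1 h1).1
      · rw [hB i' k2]
        exact (hE2 _ (hmemB i' k1 k2)).1
      · rw [hC]
        exact (hE3 i' k1 k2).1
    · intro i i1 i2
      rw [hlast]
      rcases hcase i i2 with h1 | ⟨i', k1, k2, rfl⟩ | ⟨i', k1, k2, rfl⟩
      · rw [hA i h1]
        exact (hE1 i i1 h1).2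
      · rw [hB i' k2]
        exact (hE2 _ (hmemB i' k1 k2)).2
      · rw [hC]
        exact (hE3 i' k1 k2).2
    · rw [hdxw]
      exact hang
    · rw [hdxw]
      exact hdm
  rw [hw, wind_append, wind_append, hwp, zero_add] at key
  exact key

end

/-! ### the staircase domain -/

section

variable {d : ℤ → ℤ} {n T : ℕ} {i0 : ℤ}

/-- bound of the columns -/
lemma exists_cols (d : ℤ → ℤ) (n T : ℕ) : ∃ B : ℕ, ∀ x i : ℤ, V x i ∈ Bd d n T → -(B : ℤ) < x ∧ x < B := by
  refine ⟨(Bd d n T).sup (fun v => v.1.natAbs) + 1, fun x i h => ?_⟩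
  have h1 : (V x i).1.natAbs ≤ (Bd d n T).sup (fun v => v.1.natAbs) := Finset.le_sup (f := fun v : Pt => v.1.natAbs) h
  rw [V_fst] at h1
  push_cast
  omega

/-- the prolongation of the start along its row -/
lemma prol_row {l : ℕ} (h : ∀ x i : ℤ, V x i ∈ Bd d n T → mm d i0 - 1 - l < x) :
    Prol (Bd d n T) (V (mm d i0 - 1) i0) (dR (mm d i0 - 1) i0) (2, -1) (V (mm d i0 - 1 - l) i0)
      (dR (mm d i0 - 1 - l) i0) (rowW (bR (mm d i0 - 1 - l) i0) l) := by
  obtain ⟨r1, r2⟩ := row_R i0 l (mm d i0 - 1 - l)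
  refine ⟨?_, ?_, ?_, ?_, ?_, ?_, ?_⟩
  · unfold dR
    split_ifs <;> decide
  · rw [rowW_length, r1 l (by omega)]
    congr 1
    ring
  · rw [rowW_length, r2 l le_rfl]
    congr 1
    ring
  · intro i k hik hk
    rw [rowW_length] at hk
    rw [r1 i (by omega), r1 k (by omega), Ne, V_inj]
    omega
  · intro i hi
    rw [rowW_length] at hi
    rw [r1 i (by omega), mem_Bd]
    omega
  · intro i i1 hi
    rw [rowW_length] at hi
    rw [r1 i (by omega), ip_nn, V_fst, V_fst]
    omega
  · intro v hv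
    obtain ⟨x, i, rfl, -⟩ := exists_of_mem_Bd hv
    rw [ip_nn, V_fst, V_fst]
    have := h x i hv
    omega

lemma dR_mem (x i : ℤ) : dR x i ∈ dirs := by
  unfold dR
  split_ifs <;> decide

lemma Vt_V0 (x i : ℤ) {t : List Bool} (k : ℕ) : Vt (vx (V x i) (dR x i) t k) := by
  have h1 := vx_hex (V x i) (dR x i) t k
  unfold IsHex at h1
  have h2 : Vt (V x i) := Vt_V x i
  have h3 : Vt (V x i + dR x i) := by
    rw [V_dR]
    exact Vt_V _ _
  unfold Vt at h2 h3 ⊢
  rw [HexObs.cl_add] at h3
  rcases h1 with h4 | h4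
  · rw [h4]
    exact h2
  · rw [h4]
    exact h3

/-- **all exits have windings of absolute value at most 4** -/
theorem wind_Bd (hd : Stair d) (hi0 : -(T : ℤ) ≤ i0 ∧ i0 ≤ T) {t : List Bool}
    (ht : t ∈ exits (Bd d n T) (V (mm d i0 - 1) i0) (dR (mm d i0 - 1) i0)) : |wind t| ≤ 4 := by
  classical
  unfold exits at ht
  rw [Finset.mem_filter, mem_arr] at ht
  obtain ⟨ha, hout⟩ := ht
  rcases Nat.eq_zero_or_pos t.length with hz | hlen
  · have : t = [] := List.length_eq_zero_iff.1 hz
    rw [this]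
    decide
  obtain ⟨B, hB⟩ := exists_cols d n T
  obtain ⟨l, hl⟩ : ∃ l : ℕ, l = 2 * (B + (mm d i0).natAbs + 2) := ⟨_, rfl⟩
  have hP := prol_row (d := d) (n := n) (T := T) (i0 := i0) (l := l) (fun x i h => by
    have := hB x i h
    omega)
  have hwp : wind (rowW (bR (mm d i0 - 1 - l) i0) l) = 0 := by
    rw [wind_rowW, if_pos (by omega)]
  obtain ⟨r1, -⟩ := row_R i0 l (mm d i0 - 1 - l)
  obtain ⟨v0, hv0⟩ : ∃ v0, v0 = V (mm d i0 - 1) i0 := ⟨_, rfl⟩
  obtain ⟨d0, hd0⟩ : ∃ d0, d0 = dR (mm d i0 - 1) i0 := ⟨_, rfl⟩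
  have hd0m : d0 ∈ dirs := by rw [hd0]; exact dR_mem _ _
  have hVt : ∀ k, Vt (vx v0 d0 t k) := fun k => by rw [hv0, hd0]; exact Vt_V0 _ _ k
  rw [← hv0, ← hd0] at ha hout hP
  obtain ⟨x, a, hxa, hx⟩ : ∃ x a : ℤ, vx v0 d0 t t.length = V x a ∧ V x a ∈ Bd d n T := by
    have h1 := ha.mem t.length hlen le_rfl
    obtain ⟨x, a, e, -⟩ := exists_of_mem_Bd h1
    exact ⟨x, a, e, by rw [← e]; exact h1⟩
  have hxB := hB x a hx
  have hx' := mem_Bd.1 hx
  have htip : tip v0 d0 t = vx v0 d0 t t.length + dx d0 t t.length := rfl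
  have hdm : dx d0 t t.length ∈ dirs := ds_mem hd0m _
  have hDe : De (V x a, dx d0 t t.length) := by
    refine ⟨hdm, Vt_V _ _, ?_⟩
    show Vt (V x a + dx d0 t t.length)
    rw [← hxa, ← htip]
    exact hVt _
  rcases De_V.1 hDe with hdd | hdd | hdd
  · -- to the right
    have e1 : tip v0 d0 t = V (x + 1) a := by rw [htip, hxa, hdd, V_dR]
    rw [e1, mem_Bd] at hout
    have hx2 : x + 1 = mm d a + 2 * n := by omega
    obtain ⟨l2, hl2⟩ : ∃ l2 : ℕ, l2 = 2 * (B + B + (mm d i0).natAbs + 2) := ⟨_, rfl⟩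
    obtain ⟨q, hq⟩ : ∃ q, q = rowW (bR x a) l2 := ⟨_, rfl⟩
    have hql : q.length = l2 := by rw [hq, rowW_length]
    obtain ⟨s1, s2⟩ := row_R a l2 x
    rw [← hq] at s1 s2
    have hC : ∀ k, k ≤ l2 + 1 → Cq v0 d0 t q k = V (x + k) a := by
      intro k hk
      unfold Cq
      rw [hxa, hdd]
      exact s1 k hk
    have h4 := windP hP hwp ha hlen (q := q) (mm := (2, -1)) ?_ ?_ ?_ ?_ ?_ ?_ ?_ ?_ ?_ ?_
    · rw [hq, wind_rowW, if_pos (by omega), add_zero] at h4
      exact h4
    · intro k k1 k2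
      rw [hC k (by omega), mem_Bd]
      omega
    · intro i hi k k1 k2
      rw [rowW_length] at hi
      rw [r1 i (by omega), hC k (by omega), Ne, V_inj]
      rintro ⟨g1, rfl⟩
      omega
    · intro k k' k1 k2 k3
      rw [hC k (by omega), hC k' (by omega), Ne, V_inj]
      omega
    · intro k k1 k2
      rw [hC k (by omega), ip_nn, V_fst, V_fst]
      omega
    · rw [hC _ (by omega), ip_nn, V_fst, V_fst]
      push_cast
      omega
    · intro i i1 hi
      rw [rowW_length] at hi
      rw [r1 i (by omega), hC _ (by omega), hC _ (by omega), ip_nn, ip_nn, V_fst, V_fst, V_fst]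
      push_cast
      constructor <;> omega
    · intro v hv
      obtain ⟨x2, a2, rfl, -⟩ := exists_of_mem_Bd hv
      have := hB x2 a2 hv
      rw [hC _ (by omega), hC _ (by omega), ip_nn, ip_nn, V_fst, V_fst, V_fst]
      push_cast
      constructor <;> omega
    · intro k k1 k2
      rw [hC _ (by omega), hC _ (by omega), hC _ (by omega), ip_nn, ip_nn, V_fst, V_fst, V_fst]
      push_cast
      constructor <;> omega
    · rw [hdd, hql, s2 l2 le_rfl]
      apply arg_nn
      unfold dR
      split_ifs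
      · exact Or.inl rfl
      · exact Or.inr rfl
    · rw [hdd, hql, s2 l2 le_rfl]
      unfold dR
      split_ifs <;> decide
  · -- to the left
    have e1 : tip v0 d0 t = V (x - 1) a := by rw [htip, hxa, hdd, V_dL]
    rw [e1, mem_Bd] at hout
    have hx2 : x = mm d a := by omega
    -- not back to the start
    have hne : a ≠ i0 := by
      intro he
      have h1 : vx v0 d0 t 1 = V x a := by
        show v0 + d0 = _
        rw [hv0, hd0, V_dR, hx2, he, sub_add_cancel]
      have h2 : t.length = 1 := by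
        by_contra hne
        exact ha.inj 1 t.length (by omega) le_rfl (by rw [h1, hxa])
      have h3 : dx d0 t 1 = dL x a := by rw [← hdd, h2]
      have h4 : dx d0 t 1 = turn (tf t 0) d0 := rfl
      have h5 : dL x a = -d0 := by
        rw [hd0, neg_dR, hx2, he, sub_add_cancel]
      rw [h4, h5] at h3
      exact turn_ne_neg d0 hd0m _ (by rw [h3, add_neg_cancel])
    obtain ⟨l2, hl2⟩ : ∃ l2 : ℕ, (l2 : ℤ) = l + mm d a - mm d i0 := by
      refine ⟨(l + mm d a - mm d i0).toNat, ?_⟩
      omega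
    obtain ⟨q, hq⟩ : ∃ q, q = rowW (bL x a) l2 := ⟨_, rfl⟩
    have hql : q.length = l2 := by rw [hq, rowW_length]
    obtain ⟨s1, s2⟩ := row_L a l2 x
    rw [← hq] at s1 s2
    have hC : ∀ k, k ≤ l2 + 1 → Cq v0 d0 t q k = V (x - k) a := by
      intro k hk
      unfold Cq
      rw [hxa, hdd]
      exact s1 k hk
    have h4 := windP hP hwp ha hlen (q := q) (mm := (-2, 1)) ?_ ?_ ?_ ?_ ?_ ?_ ?_ ?_ ?_ ?_
    · -- the class modulo 6
      have h5 : |wind q| ≤ 1 := by
        rw [hq]
        exact wind_rowW_le _ _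
      have h6 := ang_dx hd0m t
      rw [hdd] at h6
      have h7 : dL x a = (-1, 1) ∨ dL x a = (-1, 0) := by
        unfold dL
        split_ifs
        · exact Or.inl rfl
        · exact Or.inr rfl
      have h8 : d0 = (1, 0) ∨ d0 = (1, -1) := by
        rw [hd0]
        unfold dR
        split_ifs
        · exact Or.inl rfl
        · exact Or.inr rfl
      obtain ⟨W, hW⟩ : ∃ W, W = wind t := ⟨_, rfl⟩
      rw [← hW] at h4 h6 ⊢
      rw [abs_le] at h4 h5
      have h9 : -5 ≤ W ∧ W ≤ 5 := by constructor <;> omega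
      have h10 : W ≠ 5 ∧ W ≠ -5 := by
        rcases h7 with h7 | h7 <;> rcases h8 with h8 | h8 <;> rw [h7, h8] at h6 <;> constructor <;> rintro rfl <;>
          revert h6 <;> decide
      rw [abs_le]
      constructor <;> omega
    · intro k k1 k2
      rw [hC k (by omega), mem_Bd]
      omega
    · intro i hi k k1 k2
      rw [rowW_length] at hi
      rw [r1 i (by omega), hC k (by omega), Ne, V_inj]
      rintro ⟨g1, rfl⟩
      exact hne rfl
    · intro k k' k1 k2 k3
      rw [hC k (by omega), hC k' (by omega), Ne, V_inj]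
      omega
    · intro k k1 k2
      rw [hC k (by omega), ip_nn, V_fst, V_fst]
      omega
    · rw [hC _ (by omega), ip_nn, V_fst, V_fst]
      push_cast
      omega
    · intro i i1 hi
      rw [rowW_length] at hi
      rw [r1 i (by omega), hC _ (by omega), hC _ (by omega), ip_nn', ip_nn', V_fst, V_fst, V_fst]
      push_cast
      constructor <;> omega
    · intro v hv
      obtain ⟨x2, a2, rfl, -⟩ := exists_of_mem_Bd hv
      have := hB x2 a2 hv
      rw [hC _ (by omega), hC _ (by omega), ip_nn', ip_nn', V_fst, V_fst, V_fst]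
      push_cast
      constructor <;> omega
    · intro k k1 k2
      rw [hC _ (by omega), hC _ (by omega), hC _ (by omega), ip_nn', ip_nn', V_fst, V_fst, V_fst]
      push_cast
      constructor <;> omega
    · rw [hdd, hql, s2 l2 le_rfl]
      apply arg_nn'
      unfold dL
      split_ifs
      · exact Or.inr rfl
      · exact Or.inl rfl
    · rw [hdd, hql, s2 l2 le_rfl]
      unfold dL
      split_ifs <;> decide
  · -- vertical
    have e1 : tip v0 d0 t = V x (io x a) := by rw [htip, hxa, hdd, V_dU]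
    rw [e1] at hout
    have hself : ∀ d : Pt, d ∈ dirs → arg (HexObs.emb d / HexObs.emb d) = 0 := by
      intro d hd
      rw [div_self (emb_ne hd), Complex.arg_one]
    have hC0 : Cq v0 d0 t [] 0 = V x a := hxa
    have hC1 : Cq v0 d0 t [] 1 = V x (io x a) := e1
    rcases vert_in hd hx hout with ⟨hpar, haT, hio⟩ | ⟨hpar, haT, hio⟩
    · rw [hio] at hC1
      have hd' : dx d0 t t.length = (0, -1) := by
        rw [hdd]
        unfold dU
        rw [if_pos hpar]
      have h4 := windP hP hwp ha hlen (q := []) (mm := (0, -1)) ?_ ?_ ?_ ?_ ?_ ?_ ?_ ?_ ?_ ?_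
      · rw [show wind [] = 0 from rfl, add_zero] at h4
        exact h4
      · intro k k1 k2
        exact absurd k2 (by simp; omega)
      · intro i hi k k1 k2
        exact absurd k2 (by simp; omega)
      · intro k k' k1 k2 k3
        exact absurd k3 (by simp; omega)
      · intro k k1 k2
        exact absurd k2 (by simp; omega)
      · show 0 ≤ ip (Cq v0 d0 t [] 1 - _) _
        rw [hC1, ip_nn, V_fst, V_fst]
        omega
      · intro i i1 hi
        rw [rowW_length] at hi
        show 0 < ip (Cq v0 d0 t [] 1 - _) _ ∧ 0 ≤ ip (Cq v0 d0 t [] 0 - _) _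
        rw [r1 i (by omega), hC1, hC0, ip_dn, ip_dn, V_lev, V_lev, V_lev]
        split_ifs <;> constructor <;> omega
      · intro v hv
        obtain ⟨x2, a2, rfl, -, ha2⟩ := exists_of_mem_Bd hv
        show 0 < ip (Cq v0 d0 t [] 1 - _) _ ∧ 0 ≤ ip (Cq v0 d0 t [] 0 - _) _
        rw [hC1, hC0, ip_dn, ip_dn, V_lev, V_lev, V_lev]
        split_ifs <;> constructor <;> omega
      · intro k k1 k2
        exact absurd k2 (by simp; omega)
      · show |arg (HexObs.emb (dx d0 t t.length) / HexObs.emb (0, -1))| ≤ _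
        rw [hd', hself _ (by decide), abs_zero]
        positivity
      · show 0 < ip (dx d0 t t.length) _
        rw [hd']
        decide
    · rw [hio] at hC1
      have hd' : dx d0 t t.length = (0, 1) := by
        rw [hdd]
        unfold dU
        rw [if_neg hpar]
      have h4 := windP hP hwp ha hlen (q := []) (mm := (0, 1)) ?_ ?_ ?_ ?_ ?_ ?_ ?_ ?_ ?_ ?_
      · rw [show wind [] = 0 from rfl, add_zero] at h4
        exact h4
      · intro k k1 k2
        exact absurd k2 (by simp; omega)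
      · intro i hi k k1 k2
        exact absurd k2 (by simp; omega)
      · intro k k' k1 k2 k3
        exact absurd k3 (by simp; omega)
      · intro k k1 k2
        exact absurd k2 (by simp; omega)
      · show 0 ≤ ip (Cq v0 d0 t [] 1 - _) _
        rw [hC1, ip_nn, V_fst, V_fst]
        omega
      · intro i i1 hi
        rw [rowW_length] at hi
        show 0 < ip (Cq v0 d0 t [] 1 - _) _ ∧ 0 ≤ ip (Cq v0 d0 t [] 0 - _) _
        rw [r1 i (by omega), hC1, hC0, ip_up, ip_up, V_lev, V_lev, V_lev]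
        split_ifs <;> constructor <;> omega
      · intro v hv
        obtain ⟨x2, a2, rfl, -, ha2⟩ := exists_of_mem_Bd hv
        show 0 < ip (Cq v0 d0 t [] 1 - _) _ ∧ 0 ≤ ip (Cq v0 d0 t [] 0 - _) _
        rw [hC1, hC0, ip_up, ip_up, V_lev, V_lev, V_lev]
        split_ifs <;> constructor <;> omega
      · intro k k1 k2
        exact absurd k2 (by simp; omega)
      · show |arg (HexObs.emb (dx d0 t t.length) / HexObs.emb (0, 1))| ≤ _
        rw [hd', hself _ (by decide), abs_zero]
        positivity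
      · show 0 < ip (dx d0 t t.length) _
        rw [hd']
        decide

end

end Pool.Agent.MXD
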